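import Pool.Agent.Work.MP_b5407d_lbm.Interface

/-! # Block LOC: the local inequality -/

set_option autoImplicit false

open MeasureTheory Set Filter Topology Asymptotics

namespace Pool.LBM

namespace LOC

/-- Taylor expansion of order two with Peano remainder -/
theorem peano2 (f φ : ℝ → ℝ) (d : ℝ) (hf : ∀ᶠ s in 𝓝 (0:ℝ), HasDerivAt f (φ s) s)
    (hφ : HasDerivAt φ d 0) :
    (fun s => f s - f 0 - φ 0 * s - d / 2 * s ^ 2) =o[𝓝 (0:ℝ)] (fun s => s ^ 2) := by
  rw [Asymptotics.isLittleO_iff]
  intro ε hε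
  have h1 := hasDerivAt_iff_isLittleO.mp hφ
  have h2 := (Asymptotics.isLittleO_iff.mp h1) hε
  obtain ⟨δ, hδ, hδ'⟩ := Metric.eventually_nhds_iff_ball.mp (hf.and h2)
  filter_upwards [Metric.ball_mem_nhds (0:ℝ) hδ] with s hs
  rw [Metric.mem_ball, dist_zero_right, Real.norm_eq_abs] at hs
  have key := Convex.norm_image_sub_le_of_norm_hasDerivWithin_le
    (f := fun s => f s - f 0 - φ 0 * s - d / 2 * s ^ 2) (f' := fun s => φ s - φ 0 - d * s)
    (s := Metric.closedBall (0:ℝ) |s|) (C := ε * |s|) (x := 0) (y := s) ?_ ?_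
    (convex_closedBall _ _) ?_ ?_
  · have e0 : f 0 - f 0 - φ 0 * 0 - d / 2 * (0:ℝ) ^ 2 = 0 := by ring
    rw [e0, sub_zero, sub_zero, Real.norm_eq_abs s] at key
    refine key.trans ?_
    rw [Real.norm_eq_abs, abs_pow]
    exact le_of_eq (by ring)
  · intro t ht
    rw [Metric.mem_closedBall, dist_zero_right, Real.norm_eq_abs] at ht
    have htb : t ∈ Metric.ball (0:ℝ) δ := by
      rw [Metric.mem_ball, dist_zero_right, Real.norm_eq_abs]; linarith
    have a1 := (hδ' t htb).1
    have a2 : HasDerivAt (fun s : ℝ => f s - f 0 - φ 0 * s - d / 2 * s ^ 2)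
        (φ t - φ 0 * 1 - d / 2 * (((2:ℕ):ℝ) * t ^ (2 - 1) * 1)) t :=
      ((a1.sub_const (f 0)).sub ((hasDerivAt_id t).const_mul (φ 0))).sub
        (((hasDerivAt_id t).pow 2).const_mul (d / 2))
    have e1 : φ t - φ 0 * 1 - d / 2 * (((2:ℕ):ℝ) * t ^ (2 - 1) * 1) = φ t - φ 0 - d * t := by
      push_cast
      ring
    rw [e1] at a2
    exact a2.hasDerivWithinAt
  · intro t ht
    rw [Metric.mem_closedBall, dist_zero_right, Real.norm_eq_abs] at ht
    have htb : t ∈ Metric.ball (0:ℝ) δ := by
      rw [Metric.mem_ball, dist_zero_right, Real.norm_eq_abs]; linarith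
    have a1 := (hδ' t htb).2
    have e2 : φ t - φ 0 - (t - 0) • d = φ t - φ 0 - d * t := by
      rw [smul_eq_mul]; ring
    rw [e2, sub_zero, Real.norm_eq_abs t] at a1
    exact a1.trans (mul_le_mul_of_nonneg_left ht hε.le)
  · rw [Metric.mem_closedBall, dist_self]; exact abs_nonneg s
  · rw [Metric.mem_closedBall, dist_zero_right, Real.norm_eq_abs]

/-- product of an expansion of order one and an expansion of order two -/
theorem mul2 (u g : ℝ → ℝ) (u' a b : ℝ) (hu : HasDerivAt u u' 0)
    (hg : (fun s => g s - a * s - b * s ^ 2) =o[𝓝 (0:ℝ)] (fun s => s ^ 2)) :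
    (fun s => u s * g s - u 0 * a * s - (u 0 * b + u' * a) * s ^ 2) =o[𝓝 (0:ℝ)]
      (fun s => s ^ 2) := by
  have h1 : (fun s => u s * (g s - a * s - b * s ^ 2)) =o[𝓝 (0:ℝ)] (fun s => s ^ 2) := by
    have h0 : u =O[𝓝 (0:ℝ)] (fun _ => (1:ℝ)) := hu.continuousAt.isBigO_one ℝ
    have := h0.mul_isLittleO hg
    simpa using this
  have h2 : (fun s => (u s - u 0 - u' * s) * (a * s)) =o[𝓝 (0:ℝ)] (fun s => s ^ 2) := by
    have h0 := hasDerivAt_iff_isLittleO.mp hu
    have h3 := h0.mul_isBigO (isBigO_const_mul_self a (fun s : ℝ => s) (𝓝 (0:ℝ)))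
    refine h3.congr ?_ ?_
    · intro s
      simp only [smul_eq_mul, sub_zero]
      ring
    · intro s
      simp only [sub_zero]
      ring
  have h3 : (fun s => (u s - u 0) * (b * s ^ 2)) =o[𝓝 (0:ℝ)] (fun s => s ^ 2) := by
    have h0 : (fun s => u s - u 0) =o[𝓝 (0:ℝ)] (fun _ => (1:ℝ)) := by
      rw [isLittleO_one_iff]
      have := hu.continuousAt.tendsto
      have h4 := this.sub_const (u 0)
      rwa [sub_self] at h4
    have h3 := h0.mul_isBigO (isBigO_const_mul_self b (fun s : ℝ => s ^ 2) (𝓝 (0:ℝ)))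
    refine h3.congr ?_ ?_
    · intro s
      rfl
    · intro s
      ring
  refine ((h1.add h2).add h3).congr_left ?_
  intro s
  ring

theorem continuous_dt (a : R2) : Continuous (fun x : R2 => dt a x) := by
  unfold dt
  fun_prop

theorem continuous_ex (l : R2) : Continuous (ex l) := by
  unfold ex dt
  fun_prop

theorem isClosed_HP {ι : Type} (θ : ι → R2) (h : ι → ℝ) : IsClosed (HP θ h) := by
  have : HP θ h = ⋂ i, {x | dt (θ i) x ≤ h i} := by
    ext x
    simp [HP]
  rw [this]
  exact isClosed_iInter fun i => isClosed_le (continuous_dt _) continuous_const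

theorem isCompact_HP {ι : Type} {θ : ι → R2} (hN : Nor θ) (h : ι → ℝ) : IsCompact (HP θ h) :=
  Metric.isCompact_of_isClosed_isBounded (isClosed_HP θ h) (hN.bdd h)

theorem int_HP {ι : Type} {θ : ι → R2} (hN : Nor θ) (h : ι → ℝ) (f : R2 → ℝ)
    (hf : Continuous f) : IntegrableOn f (HP θ h) :=
  hf.continuousOn.integrableOn_compact (isCompact_HP hN h)

theorem II_pos {ι : Type} [Fintype ι] {θ : ι → R2} (l : R2) {h : ι → ℝ} (hN : Nor θ)
    (hF : Fat θ h) : 0 < II θ (ex l) h := by
  obtain ⟨x, hx⟩ := hF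
  have hopen : IsOpen {x : R2 | ∀ j, dt (θ j) x < h j} := by
    have : {x : R2 | ∀ j, dt (θ j) x < h j} = ⋂ j, {x | dt (θ j) x < h j} := by
      ext x
      simp
    rw [this]
    exact isOpen_iInter_of_finite fun j => isOpen_lt (continuous_dt _) continuous_const
  unfold II
  rw [setIntegral_pos_iff_support_of_nonneg_ae]
  · have hs : Function.support (ex l) = Set.univ := by
      ext y
      simp [ex, Real.exp_ne_zero]
    rw [hs, Set.univ_inter]
    exact lt_of_lt_of_le (hopen.measure_pos volume ⟨x, hx⟩)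
      (measure_mono fun y hy j => (hy j).le)
  · exact Filter.Eventually.of_forall fun y => (Real.exp_pos _).le
  · exact int_HP hN h _ (continuous_ex l)

end LOC

open LOC in
/-- The local inequality -/
theorem blk_LOC : Stmt_PLT → Stmt_FV → Stmt_GN → Stmt_GF → Stmt_GT → Stmt_DM → Stmt_DI →
    Stmt_DUA → Stmt_LOC := by
  intro hPLT _hFV hGN hGF hGT hDM hDI hDUA hPOS n θ P ℓ l hG hC hA hpos σ hσ
  have hN : Nor (gth n θ) := (hGN n θ P ℓ hG).1
  have hFat : Fat (gth n θ) (gh n θ P) := (hGN n θ P ℓ hG).2.1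
  -- the masses
  set J0 : ℝ := GJ n θ P l with hJ0
  have hJ0' : II (gth n θ) (ex l) (gh n θ P) = J0 := rfl
  have hJ0pos : 0 < J0 := by
    rw [← hJ0']
    exact II_pos l hN hFat
  set m : ℕ → ℝ := fun k => EI (ex l) θ P ℓ k with hm
  have hmper : ∀ k, m (k + n) = m k := by
    intro k
    simp only [hm, EI, hG.perl, hG.perP, hG.perθ]
  set z : ℕ → ℝ := fun k => m k / J0 * σ k with hz
  have hzper : ∀ k, z (k + n) = z k := by
    intro k
    simp only [hz, hmper, hσ]
  obtain ⟨W, lam, c, hD, hDle⟩ := hDUA hPOS n θ P ℓ l hG hC hA z hzper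
  set y : ℕ → ℝ := fun k => dt (θ k) (W k) with hy
  set hh : ℕ → ℝ := fun k => dt (θ k) (P k) with hhh
  -- the paths
  set Ps : ℝ → ℕ → R2 := fun s k => P k + s • W k with hPs
  set J : ℝ → ℝ := fun s => II (gth n θ) (ex (l + s • lam)) (gh n θ (Ps s)) with hJ
  set M : Fin n → ℝ → ℝ := fun k s => FI (gth n θ) (ex (l + s • lam)) (gh n θ (Ps s)) k with hM
  set B1 : ℝ → ℝ := fun s => II (gth n θ) (fun x => x.1 * ex (l + s • lam) x) (gh n θ (Ps s))
    with hB1
  set B2 : ℝ → ℝ := fun s => II (gth n θ) (fun x => x.2 * ex (l + s • lam) x) (gh n θ (Ps s))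
    with hB2
  have hl0 : l + (0:ℝ) • lam = l := by rw [zero_smul, add_zero]
  have hPs0 : Ps 0 = P := by
    funext k
    simp only [hPs, zero_smul, add_zero]
  have hJat0 : J 0 = J0 := by
    simp only [hJ]
    rw [hl0, hPs0]
    exact hJ0'
  have hMat0 : ∀ k : Fin n, M k 0 = m k := by
    intro k
    simp only [hM]
    rw [hl0, hPs0]
    exact hGF n θ P ℓ (ex l) hG k
  have hB1at0 : B1 0 = 0 := by
    simp only [hB1]
    rw [hl0, hPs0]
    exact hC.1
  have hB2at0 : B2 0 = 0 := by
    simp only [hB2]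
    rw [hl0, hPs0]
    exact hC.2
  -- derivatives at 0
  have dM : ∀ k : Fin n, HasDerivAt (M k) (c * m k - J0 * z k) 0 := by
    intro k
    have h1 := hDM n θ P ℓ l lam W hG hD.per hD.par k
    rw [hD.mass k] at h1
    exact h1
  have dB1 : HasDerivAt B1 0 0 := by
    have h1 := hDI n θ P ℓ l lam W (fun x => x.1) hG continuous_fst hD.per
    rw [hD.bar1] at h1
    exact h1
  have dB2 : HasDerivAt B2 0 0 := by
    have h1 := hDI n θ P ℓ l lam W (fun x => x.2) hG continuous_snd hD.per
    rw [hD.bar2] at h1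
    exact h1
  have dJ0 : HasDerivAt J (c * J0) 0 := by
    have h1 := hDI n θ P ℓ l lam W (fun _ => 1) hG continuous_const hD.per
    rw [hD.vol] at h1
    simp only [one_mul] at h1
    exact h1
  -- the polygons along the path
  have hGs : ∀ᶠ s in 𝓝 (0:ℝ), Gon n θ (Ps s)
      (fun k => ℓ k + s * dt (rt (θ k)) (W (k + 1) - W k)) :=
    hGT n θ P ℓ W hG hD.per hD.par
  -- derivative of `J` along the path
  have dJ : ∀ᶠ s in 𝓝 (0:ℝ), HasDerivAt J
      (∑ k : Fin n, y k * M k s + (lam.1 * B1 s + lam.2 * B2 s)) s := by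
    filter_upwards [hGs] with s hs
    have h1 := hDI n θ (Ps s) _ (l + s • lam) lam W (fun _ => 1) hs continuous_const hD.per
    have h2 : HasDerivAt (fun r : ℝ => II (gth n θ) (fun x => (1:ℝ) * ex (l + s • lam + r • lam) x)
        (gh n θ (fun k => Ps s k + r • W k)))
        (dII n θ (Ps s) (fun k => ℓ k + s * dt (rt (θ k)) (W (k + 1) - W k)) (l + s • lam)
        lam W (fun _ => 1)) (s - s) := by
      rw [sub_self]
      exact h1
    have h3 := h2.comp_sub_const s s
    have e1 : (fun x : ℝ => II (gth n θ)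
        (fun x_1 => (1:ℝ) * ex (l + s • lam + (x - s) • lam) x_1)
        (gh n θ (fun k => Ps s k + (x - s) • W k))) = J := by
      funext x
      have e2 : l + s • lam + (x - s) • lam = l + x • lam := by
        rw [add_assoc, ← add_smul]
        congr 2
        ring
      have e3 : (fun k => Ps s k + (x - s) • W k) = Ps x := by
        funext k
        simp only [hPs]
        rw [add_assoc, ← add_smul]
        congr 2
        ring
      rw [e2, e3]
      simp only [one_mul]
      rfl
    rw [e1] at h3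
    have e4 : dII n θ (Ps s) (fun k => ℓ k + s * dt (rt (θ k)) (W (k + 1) - W k)) (l + s • lam)
        lam W (fun _ => 1) = ∑ k : Fin n, y k * M k s + (lam.1 * B1 s + lam.2 * B2 s) := by
      unfold dII
      rw [Finset.sum_range]
      congr 1
      · refine Finset.sum_congr rfl fun k _ => ?_
        have e5 := hGF n θ (Ps s) _ (ex (l + s • lam)) hs k
        simp only [one_mul]
        simp only [hM, hy]
        rw [e5]
      · have i1 : IntegrableOn (fun x : R2 => lam.1 * (x.1 * ex (l + s • lam) x))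
            (HP (gth n θ) (gh n θ (Ps s))) :=
          int_HP hN _ _ (continuous_const.mul (continuous_fst.mul (continuous_ex _)))
        have i2 : IntegrableOn (fun x : R2 => lam.2 * (x.2 * ex (l + s • lam) x))
            (HP (gth n θ) (gh n θ (Ps s))) :=
          int_HP hN _ _ (continuous_const.mul (continuous_snd.mul (continuous_ex _)))
        have e6 : (fun x : R2 => (1:ℝ) * dt lam x * ex (l + s • lam) x) =
            fun x : R2 => lam.1 * (x.1 * ex (l + s • lam) x) +
              lam.2 * (x.2 * ex (l + s • lam) x) := by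
          funext x
          unfold dt
          ring
        rw [e6]
        unfold GP
        rw [integral_add i1 i2, integral_const_mul, integral_const_mul]
        rfl
    rw [← e4]
    exact h3
  have hJpos : ∀ᶠ s in 𝓝 (0:ℝ), 0 < J s := by
    filter_upwards [hGs] with s hs
    exact II_pos _ hN (hGN n θ (Ps s) _ hs).2.1
  -- second order expansion of `log J`
  have hJ00 : J 0 ≠ 0 := by rw [hJat0]; exact hJ0pos.ne'
  have expJ : (fun s => Real.log (J s) - Real.log J0 - (∑ k : Fin n, y k * m k) / J0 * s -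
      (-∑ k : Fin n, y k * z k) / 2 * s ^ 2) =o[𝓝 (0:ℝ)] (fun s => s ^ 2) := by
    have h1 := peano2 (fun s => Real.log (J s))
      (fun s => (∑ k : Fin n, y k * M k s + (lam.1 * B1 s + lam.2 * B2 s)) / J s)
      (-∑ k : Fin n, y k * z k) ?_ ?_
    · simp only [hJat0, hMat0, hB1at0, hB2at0, mul_zero, add_zero] at h1
      exact h1
    · filter_upwards [dJ, hJpos] with s h2 h3
      exact h2.log h3.ne'
    · have h4 : HasDerivAt (fun s => ∑ k : Fin n, y k * M k s + (lam.1 * B1 s + lam.2 * B2 s))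
          (∑ k : Fin n, y k * (c * m k - J0 * z k) + (lam.1 * 0 + lam.2 * 0)) 0 := by
        refine HasDerivAt.add ?_ ((dB1.const_mul _).add (dB2.const_mul _))
        exact HasDerivAt.fun_sum fun k _ => (dM k).const_mul (y k)
      have h5 := h4.div dJ0 hJ00
      have e7 : ((∑ k : Fin n, y k * (c * m k - J0 * z k) + (lam.1 * 0 + lam.2 * 0)) * J 0 -
          (∑ k : Fin n, y k * M k 0 + (lam.1 * B1 0 + lam.2 * B2 0)) * (c * J0)) / J 0 ^ 2 =
          -∑ k : Fin n, y k * z k := by
        simp only [hJat0, hMat0, hB1at0, hB2at0, mul_zero, add_zero]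
        have e8 : ∑ k : Fin n, y k * (c * m k - J0 * z k) =
            c * ∑ k : Fin n, y k * m k - J0 * ∑ k : Fin n, y k * z k := by
          rw [Finset.mul_sum, Finset.mul_sum, ← Finset.sum_sub_distrib]
          exact Finset.sum_congr rfl fun k _ => by ring
        rw [e8]
        field_simp
        ring
      rw [e7] at h5
      exact h5
  -- expansion of the terms of the tangent inequality
  have dU : ∀ k : Fin n, HasDerivAt (fun s => M k s / J s) (-z k) 0 := by
    intro k
    have h5 := (dM k).div dJ0 hJ00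
    have e7 : ((c * m k - J0 * z k) * J 0 - M k 0 * (c * J0)) / J 0 ^ 2 = - z k := by
      rw [hJat0, hMat0]
      field_simp
      ring
    rw [e7] at h5
    exact h5
  have expg : ∀ k : Fin n, (fun s => (hh k * Real.exp (s * σ k) - (hh k + s * y k)) -
      (hh k * σ k - y k) * s - (hh k * σ k ^ 2 / 2) * s ^ 2) =o[𝓝 (0:ℝ)] (fun s => s ^ 2) := by
    intro k
    have h1 := peano2 (fun s => hh k * Real.exp (s * σ k) - (hh k + s * y k))
      (fun s => hh k * (Real.exp (s * σ k) * σ k) - y k) (hh k * σ k ^ 2) ?_ ?_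
    · refine h1.congr_left ?_
      intro s
      simp only [zero_mul, Real.exp_zero]
      ring
    · refine Filter.Eventually.of_forall fun s => ?_
      have a1 : HasDerivAt (fun s : ℝ => Real.exp (s * σ k)) (Real.exp (s * σ k) * σ k) s := by
        have := ((hasDerivAt_id s).mul_const (σ k)).exp
        simpa using this
      have a2 : HasDerivAt (fun s : ℝ => hh k + s * y k) (y k) s := by
        have := ((hasDerivAt_id s).mul_const (y k)).const_add (hh k)
        simpa using this
      exact (a1.const_mul (hh k)).sub a2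
    · have a1 : HasDerivAt (fun s : ℝ => Real.exp (s * σ k))
          (Real.exp ((0:ℝ) * σ k) * σ k) 0 := by
        have := ((hasDerivAt_id (0:ℝ)).mul_const (σ k)).exp
        simpa using this
      have a3 := ((a1.mul_const (σ k)).const_mul (hh k)).sub_const (y k)
      have e9 : hh k * (Real.exp ((0:ℝ) * σ k) * σ k * σ k) = hh k * σ k ^ 2 := by
        rw [zero_mul, Real.exp_zero]
        ring
      rw [e9] at a3
      exact a3
  have expS : (fun s => ∑ k : Fin n, ((M k s / J s) *
      (hh k * Real.exp (s * σ k) - (hh k + s * y k)) -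
      m k / J0 * (hh k * σ k - y k) * s -
      (m k / J0 * (hh k * σ k ^ 2 / 2) + -z k * (hh k * σ k - y k)) * s ^ 2)) =o[𝓝 (0:ℝ)]
      (fun s => s ^ 2) := by
    refine IsLittleO.fun_sum fun k _ => ?_
    have h1 := mul2 (fun s => M k s / J s)
      (fun s => hh k * Real.exp (s * σ k) - (hh k + s * y k)) (-z k) (hh k * σ k - y k)
      (hh k * σ k ^ 2 / 2) (dU k) (expg k)
    simp only [hJat0, hMat0] at h1
    exact h1
  -- conclusion
  refine ⟨lam, ∑ k : Fin n, m k / J0 * (hh k * σ k), fun ε hε => ?_⟩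
  have hsum := expJ.add expS
  have hfin := (isLittleO_iff.mp hsum) hε
  have hquad : ∑ k : Fin n, y k * z k ≤ ∑ k : Fin n, m k / J0 * (hh k * σ k ^ 2) := by
    have h1 := hDle
    rw [Finset.sum_range, Finset.sum_range] at h1
    calc ∑ k : Fin n, y k * z k = ∑ k : Fin n, z k * dt (θ k) (W k) :=
          Finset.sum_congr rfl fun k _ => by rw [mul_comm]
      _ ≤ _ := h1
      _ = ∑ k : Fin n, m k / J0 * (hh k * σ k ^ 2) := by
          refine Finset.sum_congr rfl fun k _ => ?_
          by_cases hmk : m k = 0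
          · have : EI (ex l) θ P ℓ k = 0 := hmk
            rw [this, hmk]
            simp
          · have e10 : z k = m k / J0 * σ k := rfl
            have e11 : EI (ex l) θ P ℓ k = m k := rfl
            have e12 : GJ n θ P l = J0 := rfl
            have e13 : dt (θ k) (P k) = hh k := rfl
            rw [e10, e11, e12, e13]
            field_simp
  filter_upwards [hfin, hGs, hJpos] with s h1 h2 h3
  have hFs : Fat (gth n θ) (gh n θ (Ps s)) := (hGN n θ (Ps s) _ h2).2.1
  have hFh : Fat (gth n θ) (fun k : Fin n => dt (θ k) (P k) * Real.exp (s * σ k)) := by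
    refine ⟨0, fun j => ?_⟩
    have : dt (gth n θ j) 0 = 0 := by simp [dt]
    rw [this]
    exact mul_pos (hpos j) (Real.exp_pos _)
  have h4 := hPLT (Fin n) (gth n θ) (l + s • lam) (gh n θ (Ps s))
    (fun k : Fin n => dt (θ k) (P k) * Real.exp (s * σ k)) hN hFs hFh
  have e14 : ∀ k : Fin n, gh n θ (Ps s) k = hh k + s * y k := by
    intro k
    simp only [gh, hPs, hhh, hy, dt, Prod.fst_add, Prod.snd_add, Prod.smul_fst, Prod.smul_snd,
      smul_eq_mul]
    ring
  have e15 : ∑ j : Fin n, FI (gth n θ) (ex (l + s • lam)) (gh n θ (Ps s)) j /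
      II (gth n θ) (ex (l + s • lam)) (gh n θ (Ps s)) *
      (dt (θ j) (P j) * Real.exp (s * σ j) - gh n θ (Ps s) j) =
      ∑ k : Fin n, (M k s / J s) * (hh k * Real.exp (s * σ k) - (hh k + s * y k)) := by
    refine Finset.sum_congr rfl fun k _ => ?_
    rw [e14 k]
  rw [e15] at h4
  have h5 : Real.log (II (gth n θ) (ex (l + s • lam)) (gh n θ (Ps s))) = Real.log (J s) := rfl
  rw [h5] at h4
  have h6 := (le_abs_self _).trans h1
  rw [Real.norm_eq_abs, abs_of_nonneg (sq_nonneg s)] at h6
  rw [Finset.sum_sub_distrib, Finset.sum_sub_distrib, ← Finset.sum_mul, ← Finset.sum_mul] at h6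
  have e16 : ∑ k : Fin n, (m k / J0 * (hh k * σ k ^ 2 / 2) + -z k * (hh k * σ k - y k)) =
      -(1 / 2) * ∑ k : Fin n, m k / J0 * (hh k * σ k ^ 2) + ∑ k : Fin n, y k * z k := by
    rw [Finset.mul_sum, ← Finset.sum_add_distrib]
    refine Finset.sum_congr rfl fun k _ => ?_
    have e10 : z k = m k / J0 * σ k := rfl
    rw [e10]
    ring
  have e17 : ∑ k : Fin n, m k / J0 * (hh k * σ k - y k) =
      ∑ k : Fin n, m k / J0 * (hh k * σ k) - (∑ k : Fin n, y k * m k) / J0 := by
    rw [Finset.sum_div, ← Finset.sum_sub_distrib]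
    refine Finset.sum_congr rfl fun k _ => ?_
    ring
  rw [e16, e17] at h6
  have h7 : (∑ k : Fin n, y k * z k) * s ^ 2 ≤
      (∑ k : Fin n, m k / J0 * (hh k * σ k ^ 2)) * s ^ 2 :=
    mul_le_mul_of_nonneg_right hquad (sq_nonneg s)
  rw [hJ0']
  refine h4.trans ?_
  linarith

end Pool.LBM
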